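import Mathlib
import Pool.Agent.V1160.Ladders

/-!
# A subgroup of `G⋆(ω)`, `τ = ω₁`, without a suitable set
-/

namespace Pool.Agent.Results.MP_7b4824_gt.NoSuitableSet

open Set Topology Pool.Agent.V1160.OmegaOne Pool.Agent.V1160.Ladders

/-- The group topology of `G⋆` on the full product of the groups `G a`, `a < ω₁` (`W1` is the
well-ordered type of order type `ω₁`): a base of neighbourhoods of `x` is formed by the sets of
all `y` which agree with `x` below some `a < ω₁`. -/
def starTop (G : W1 → Type) : TopologicalSpace (∀ a, G a) where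
  IsOpen s := ∀ x ∈ s, ∃ a, ∀ y : ∀ a, G a, (∀ b < a, y b = x b) → y ∈ s
  isOpen_univ := by
    have hne : Nonempty W1 := by
      have := uncountable_W1
      infer_instance
    exact fun x _ => ⟨hne.some, fun _ _ => mem_univ _⟩
  isOpen_inter s t hs ht x hx := by
    obtain ⟨a, ha⟩ := hs x hx.1
    obtain ⟨b, hb⟩ := ht x hx.2
    exact ⟨max a b, fun y hy => ⟨ha y fun c hc => hy c (lt_of_lt_of_le hc (le_max_left _ _)),
      hb y fun c hc => hy c (lt_of_lt_of_le hc (le_max_right _ _))⟩⟩
  isOpen_sUnion S hS x hx := by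
    obtain ⟨s, hs, hxs⟩ := hx
    obtain ⟨a, ha⟩ := hS s hs x hxs
    exact ⟨a, fun y hy => ⟨s, hs, ha y hy⟩⟩

/-- `S` is a suitable set for the topological group `H`. -/
def IsSuitable (H : Type*) [Group H] [TopologicalSpace H] (S : Set H) : Prop :=
  DiscreteTopology S ∧ IsClosed (S ∪ {1}) ∧ Dense (Subgroup.closure S : Set H)

/-- the two-element group. -/
abbrev M : Type := Multiplicative (ZMod 2)

/-- its non-trivial element. -/
def t : M := Multiplicative.ofAdd 1

theorem t_ne_one : t ≠ 1 := by decide

theorem eq_t_of_ne {m : M} (h : m ≠ 1) : m = t := by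
  revert m; decide

theorem M_mul_self (m : M) : m * m = 1 := by
  revert m; decide

/-- the full product. -/
abbrev P : Type := W1 → M

theorem P_mul_self (x : P) : x * x = 1 := by
  funext a; exact M_mul_self _

/-- A fixed ladder system. -/
noncomputable def Lad : W1 → Set W1 := exists_ladder_system.choose

theorem Lad_sub (x : W1) : Lad x ⊆ Iio x := exists_ladder_system.choose_spec.1 x
theorem Lad_cof {x : W1} (hx : Lim x) : ∀ a < x, ∃ b ∈ Lad x, a < b :=
  exists_ladder_system.choose_spec.2.1 x hx
theorem Lad_fin {x a : W1} (h : a < x) : (Lad x ∩ Iio a).Finite :=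
  exists_ladder_system.choose_spec.2.2 x a h

open Classical in
/-- The indicator of a set of countable ordinals, as an element of `P`. -/
noncomputable def ind (A : Set W1) : P := fun a => if a ∈ A then t else 1

theorem ind_of_mem {A : Set W1} {a : W1} (h : a ∈ A) : ind A a = t := if_pos h
theorem ind_of_notMem {A : Set W1} {a : W1} (h : a ∉ A) : ind A a = 1 := if_neg h

/-- The generators: indicators of singletons and of ladders. -/
noncomputable def gen (j : W1 × Bool) : P := if j.2 then ind {j.1} else ind (Lad j.1)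

theorem gen_apply_ge {j : W1 × Bool} {a : W1} (h : j.1 < a) : gen j a = 1 := by
  unfold gen
  split_ifs
  · exact ind_of_notMem (fun h' => by
      have : a = j.1 := h'
      exact absurd h (this ▸ lt_irrefl _))
  · exact ind_of_notMem (fun h' => lt_asymm h (Lad_sub _ h'))

theorem gen_fin {j : W1 × Bool} {a : W1} (h : a < j.1) : {b | b < a ∧ gen j b ≠ 1}.Finite := by
  unfold gen
  split_ifs
  · refine (finite_singleton j.1).subset ?_
    rintro b ⟨-, hb⟩
    by_contra hne
    exact hb (ind_of_notMem hne)
  · refine (Lad_fin h).subset ?_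
    rintro b ⟨hba, hb⟩
    refine ⟨?_, hba⟩
    by_contra hne
    exact hb (ind_of_notMem hne)

/-- The value of a code. -/
noncomputable def val (c : Finset (W1 × Bool)) : P := ∏ j ∈ c, gen j

/-- The group `H` generated by the finite sets and the ladders. -/
noncomputable def Hg : Subgroup P := Subgroup.closure (range gen)

theorem gen_mem (j : W1 × Bool) : gen j ∈ Hg := Subgroup.subset_closure (mem_range_self j)

theorem val_mem (c : Finset (W1 × Bool)) : val c ∈ Hg :=
  Subgroup.prod_mem _ fun j _ => gen_mem j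

theorem exists_code {x : P} (hx : x ∈ Hg) : ∃ c, val c = x := by
  classical
  induction hx using Subgroup.closure_induction with
  | mem x hx =>
    obtain ⟨j, rfl⟩ := hx
    exact ⟨{j}, by simp [val]⟩
  | one => exact ⟨∅, by simp [val]⟩
  | inv x _ ih =>
    obtain ⟨c, rfl⟩ := ih
    refine ⟨c, ?_⟩
    rw [eq_inv_iff_mul_eq_one]
    exact P_mul_self _
  | mul x y _ _ ihx ihy =>
    obtain ⟨c, rfl⟩ := ihx
    obtain ⟨d, rfl⟩ := ihy
    refine ⟨symmDiff c d, ?_⟩
    have h1 : val c = val (c \ d) * val (c ∩ d) := by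
      rw [val, val, val, ← Finset.prod_union (Finset.disjoint_sdiff_inter c d),
        Finset.sdiff_union_inter]
    have h2 : val d = val (d \ c) * val (c ∩ d) := by
      rw [Finset.inter_comm c d, val, val, val, ← Finset.prod_union (Finset.disjoint_sdiff_inter d c),
        Finset.sdiff_union_inter]
    have h3 : val (symmDiff c d) = val (c \ d) * val (d \ c) := by
      have hdis : Disjoint (c \ d) (d \ c) := disjoint_sdiff_sdiff
      rw [val, val, val, ← Finset.prod_union hdis]
      rfl
    rw [h1, h2, h3]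
    calc val (c \ d) * val (d \ c) = val (c \ d) * val (d \ c) * 1 := by rw [mul_one]
      _ = val (c \ d) * val (d \ c) * (val (c ∩ d) * val (c ∩ d)) := by rw [P_mul_self]
      _ = _ := by
        simp only [mul_left_comm, mul_comm]

theorem val_fin {c : Finset (W1 × Bool)} {a : W1} (h : ∀ j ∈ c, a < j.1) :
    {b | b < a ∧ val c b ≠ 1}.Finite := by
  classical
  induction c using Finset.induction_on with
  | empty =>
    refine finite_empty.subset ?_
    rintro b ⟨-, hb⟩
    exact hb (by simp [val])
  | insert j c hj ih =>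
    have h1 := gen_fin (h j (Finset.mem_insert_self _ _))
    have h2 := ih fun i hi => h i (Finset.mem_insert_of_mem hi)
    refine (h1.union h2).subset ?_
    rintro b ⟨hba, hb⟩
    by_contra hcon
    simp only [mem_union, mem_ofPred_eq, hba, true_and, not_or, not_not] at hcon
    apply hb
    rw [val, Finset.prod_insert hj, Pi.mul_apply]
    change gen j b * val c b = 1
    rw [hcon.1, hcon.2, mul_one]

theorem countable_supp {x : P} (hx : x ∈ Hg) : {a | x a ≠ 1}.Countable := by
  induction hx using Subgroup.closure_induction with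
  | mem x hx =>
    obtain ⟨j, rfl⟩ := hx
    refine (countable_Iic j.1).mono fun a ha => ?_
    by_contra hlt
    exact ha (gen_apply_ge (not_le.1 hlt))
  | one =>
    refine countable_empty.mono ?_
    intro a ha
    exact ha rfl
  | inv x _ ih =>
    refine ih.mono ?_
    intro a ha h
    apply ha
    change (x a)⁻¹ = 1
    rw [h, inv_one]
  | mul x y _ _ ihx ihy =>
    refine (ihx.union ihy).mono fun a ha => ?_
    by_contra hcon
    simp only [mem_union, mem_ofPred_eq, not_or, not_not] at hcon
    apply ha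
    change x a * y a = 1
    rw [hcon.1, hcon.2, mul_one]

/-- Uncountably many codes of the same length, with distinct values, accumulate in `H`. -/
theorem accumulate (n : ℕ) : ∀ C : Set (Finset (W1 × Bool)), (∀ c ∈ C, c.card = n) →
    ¬ C.Countable → InjOn val C →
    ∃ x ∈ Hg, ∀ a, ∃ c ∈ C, val c ≠ x ∧ ∀ b < a, val c b = x b := by
  classical
  induction n with
  | zero =>
    intro C hC hunc _
    exfalso
    apply hunc
    refine (countable_singleton (∅ : Finset (W1 × Bool))).mono fun c hc => ?_
    exact Finset.card_eq_zero.1 (hC c hc)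
  | succ n ih =>
    intro C hC hunc hinj
    by_cases hcase : ∃ j, ¬ {c ∈ C | j ∈ c}.Countable
    · obtain ⟨j, hj⟩ := hcase
      have hval : ∀ c, j ∈ c → val c = gen j * val (c.erase j) := fun c hc =>
        (Finset.mul_prod_erase c gen hc).symm
      have hinj1 : InjOn (fun c : Finset (W1 × Bool) => c.erase j) {c ∈ C | j ∈ c} := by
        intro c hc d hd hcd
        have : c.erase j = d.erase j := hcd
        rw [← Finset.insert_erase hc.2, ← Finset.insert_erase hd.2, this]
      obtain ⟨x, hx, hacc⟩ := ih ((fun c : Finset (W1 × Bool) => c.erase j) '' {c ∈ C | j ∈ c})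
        (by
          rintro _ ⟨c, hc, rfl⟩
          change (c.erase j).card = n
          rw [Finset.card_erase_of_mem hc.2, hC c hc.1]
          rfl)
        (fun hcount => hj (Set.countable_of_injective_of_countable_image hinj1 hcount))
        (by
          rintro _ ⟨c, hc, rfl⟩ _ ⟨d, hd, rfl⟩ hcd
          have : val c = val d := by
            rw [hval c hc.2, hval d hd.2]
            exact congrArg _ hcd
          rw [hinj hc.1 hd.1 this])
      refine ⟨gen j * x, Hg.mul_mem (gen_mem j) hx, fun a => ?_⟩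
      obtain ⟨_, ⟨c, hc, rfl⟩, h1, h2⟩ := hacc a
      refine ⟨c, hc.1, ?_, fun b hb => ?_⟩
      · rw [hval c hc.2]
        exact fun h => h1 (mul_left_cancel h)
      · rw [hval c hc.2, Pi.mul_apply, Pi.mul_apply]
        exact congrArg _ (h2 b hb)
    · push Not at hcase
      -- codes far to the right
      have hfar : ∀ a : W1, ∃ c ∈ C, ∀ j ∈ c, a < j.1 := by
        intro a
        by_contra hcon
        push Not at hcon
        apply hunc
        have hcount : ({j : W1 × Bool | j.1 ≤ a}).Countable := by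
          have : {j : W1 × Bool | j.1 ≤ a} = Iic a ×ˢ univ := by
            ext j; simp
          rw [this]
          exact (countable_Iic a).prod countable_univ
        refine (hcount.biUnion fun j _ => hcase j).mono fun c hc => ?_
        obtain ⟨j, hj, hja⟩ := hcon c hc
        exact mem_iUnion₂.2 ⟨j, hja, hc, hj⟩
      choose c hcC hc using hfar
      -- the finite trace of `val (c a)` below `a`
      let E : W1 → Finset W1 := fun a => (val_fin (hc a)).toFinset
      have hE : ∀ a b, b ∈ E a ↔ b < a ∧ val (c a) b ≠ 1 := fun a b => by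
        simp [E]
      have hbd : ∀ a, Lim a → ∃ b < a, ∀ e ∈ E a, e ≤ b := by
        intro a ha
        by_cases hne : (E a).Nonempty
        · refine ⟨(E a).max' hne, ((hE a _).1 ((E a).max'_mem hne)).1, fun e he =>
            (E a).le_max' e he⟩
        · obtain ⟨b, hb⟩ := ha.1
          refine ⟨b, hb, fun e he => absurd ⟨e, he⟩ hne⟩
      let f : W1 → W1 := fun a => if h : Lim a then (hbd a h).choose else a
      have hf1 : ∀ a, Lim a → f a < a := by
        intro a ha
        have : f a = (hbd a ha).choose := dif_pos ha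
        rw [this]
        exact (hbd a ha).choose_spec.1
      have hf2 : ∀ a, Lim a → ∀ e ∈ E a, e ≤ f a := by
        intro a ha
        have : f a = (hbd a ha).choose := dif_pos ha
        rw [this]
        exact (hbd a ha).choose_spec.2
      obtain ⟨β, hβ⟩ := press f hf1
      have hZ : ¬ {a | Lim a ∧ f a = β}.Countable :=
        uncountable_of_unbounded fun a => by
          obtain ⟨x, hx1, hx2⟩ := hβ a
          exact ⟨x, hx1, hx2⟩
      -- pigeonhole on the trace
      obtain ⟨E₀, hE₀⟩ : ∃ E₀ : Finset W1, ¬ {a | (Lim a ∧ f a = β) ∧ E a = E₀}.Countable := by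
        by_contra hcon
        push Not at hcon
        apply hZ
        have hcount : {F : Finset W1 | (F : Set W1) ⊆ Iic β}.Countable := by
          have h1 := Set.countable_ofPred_finite_subset (countable_Iic β)
          refine (h1.preimage_of_injOn (f := fun F : Finset W1 => (F : Set W1))
            Finset.coe_injective.injOn).mono ?_
          intro F hF
          exact ⟨F.finite_toSet, hF⟩
        refine (hcount.biUnion fun F _ => hcon F).mono fun a ha => ?_
        refine mem_iUnion₂.2 ⟨E a, ?_, ha, rfl⟩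
        intro e he
        have := hf2 a ha.1 e he
        rw [ha.2] at this
        exact this
      have hunb := unbounded_of_uncountable hE₀
      refine ⟨∏ e ∈ E₀, gen (e, true), Subgroup.prod_mem _ fun e _ => gen_mem _, fun a => ?_⟩
      set x : P := ∏ e ∈ E₀, gen (e, true) with hx
      -- avoid the code with value `x`
      obtain ⟨a', haa', hne⟩ : ∃ a', a ≤ a' ∧ ∀ ξ, a' < ξ → val (c ξ) ≠ x := by
        by_cases hex : ∃ ξ, val (c ξ) = x
        · obtain ⟨ξ₀, hξ₀⟩ := hex
          have hne0 : (c ξ₀).Nonempty := by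
            rw [← Finset.card_pos, hC _ (hcC ξ₀)]
            omega
          obtain ⟨j, hj⟩ := hne0
          refine ⟨max a j.1, le_max_left _ _, fun ξ hξ hval => ?_⟩
          have : c ξ = c ξ₀ := hinj (hcC _) (hcC _) (hval.trans hξ₀.symm)
          have h1 := hc ξ j (this ▸ hj)
          exact lt_asymm h1 (lt_of_le_of_lt (le_max_right _ _) hξ)
        · push Not at hex
          exact ⟨a, le_rfl, fun ξ _ => hex ξ⟩
      obtain ⟨ξ, hξ1, ⟨hξ2, hξ3⟩, hξ4⟩ := hunb a'
      refine ⟨c ξ, hcC ξ, hne ξ hξ1, fun b hb => ?_⟩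
      have hbξ : b < ξ := lt_of_lt_of_le hb (haa'.trans hξ1.le)
      have hxb : x b = if b ∈ E₀ then t else 1 := by
        rw [hx, Finset.prod_apply]
        have : ∀ e ∈ E₀, gen (e, true) b = if e = b then t else 1 := by
          intro e _
          change ind {e} b = _
          by_cases heb : e = b
          · rw [if_pos heb, ind_of_mem (A := {e}) heb.symm]
          · rw [if_neg heb, ind_of_notMem (A := {e}) (fun h => heb (show b = e from h).symm)]
        rw [Finset.prod_congr rfl this, Finset.prod_ite_eq']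
      rw [hxb]
      split_ifs with hmem
      · rw [← hξ4] at hmem
        exact eq_t_of_ne ((hE ξ b).1 hmem).2
      · rw [← hξ4] at hmem
        by_contra hne'
        exact hmem ((hE ξ b).2 ⟨hbξ, hne'⟩)

/-- **Q1 is false**: for `G a = Z/2` there is a subgroup of `G⋆(ω)` without a suitable set. -/
theorem result : ∃ (G : W1 → Type) (_ : ∀ a, Group (G a)) (_ : ∀ a, Nontrivial (G a))
    (H : Subgroup (∀ a, G a)), (∀ x ∈ H, {a | x a ≠ 1}.Countable) ∧
      ∀ S : Set H, ¬ @IsSuitable H _ ((starTop G).induced Subtype.val) S := by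
  refine ⟨fun _ => M, inferInstance, inferInstance, Hg, fun x hx => countable_supp hx, ?_⟩
  intro S hS
  letI τ : TopologicalSpace P := starTop fun _ => M
  change @IsSuitable Hg _ (τ.induced Subtype.val) S at hS
  obtain ⟨hdisc, hclosed, hdense⟩ := hS
  -- cylinders are open in `H`
  have hcyl : ∀ (x : Hg) (a : W1), IsOpen {y : Hg | ∀ b < a, (y : P) b = (x : P) b} := by
    intro x a
    refine ⟨{y : P | ∀ b < a, y b = (x : P) b}, ?_, rfl⟩
    intro y hy
    exact ⟨a, fun z hz b hb => (hz b hb).trans (hy b hb)⟩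
  have hbasis : ∀ (x : Hg) (U : Set Hg), IsOpen U → x ∈ U →
      ∃ a, ∀ y : Hg, (∀ b < a, (y : P) b = (x : P) b) → y ∈ U := by
    rintro x U ⟨V, hV, rfl⟩ hx
    obtain ⟨a, ha⟩ := hV x hx
    exact ⟨a, fun y hy => ha y hy⟩
  -- only countably many elements of `S` are non-trivial below `a`
  have hcount : ∀ a : W1, {s ∈ S | ∃ b < a, (s : P) b ≠ 1}.Countable := by
    intro a
    by_contra hunc
    set Sa : Set Hg := {s ∈ S | ∃ b < a, (s : P) b ≠ 1} with hSa
    choose code hcode using fun s : Hg => exists_code s.2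
    obtain ⟨n, hn⟩ : ∃ n, ¬ {s ∈ Sa | (code s).card = n}.Countable := by
      by_contra hcon
      push Not at hcon
      apply hunc
      refine (countable_iUnion hcon).mono fun s hs => ?_
      exact mem_iUnion.2 ⟨(code s).card, hs, rfl⟩
    have hcinj : Function.Injective code := fun x y hxy => by
      apply Subtype.ext
      rw [← hcode x, ← hcode y, hxy]
    obtain ⟨x, hxH, hacc⟩ := accumulate n (code '' {s ∈ Sa | (code s).card = n})
      (by rintro _ ⟨s, hs, rfl⟩; exact hs.2)
      (fun h => hn (Set.countable_of_injective_of_countable_image hcinj.injOn h))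
      (by
        rintro _ ⟨s, -, rfl⟩ _ ⟨s', -, rfl⟩ h
        rw [hcode, hcode] at h
        rw [Subtype.ext h])
    have hacc' : ∀ c : W1, ∃ s ∈ Sa, s ≠ ⟨x, hxH⟩ ∧ ∀ b < c, (s : P) b = x b := by
      intro c
      obtain ⟨_, ⟨s, hs, rfl⟩, h1, h2⟩ := hacc c
      rw [hcode] at h1 h2
      exact ⟨s, hs.1, fun h => h1 (congrArg Subtype.val h), h2⟩
    have hxcl : (⟨x, hxH⟩ : Hg) ∈ S ∪ {1} := by
      rw [← hclosed.closure_eq, mem_closure_iff]
      intro U hU hxU
      obtain ⟨c, hc⟩ := hbasis _ U hU hxU
      obtain ⟨s, hs, -, hsc⟩ := hacc' c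
      exact ⟨s, hc s hsc, Or.inl hs.1⟩
    have hxne : (⟨x, hxH⟩ : Hg) ≠ 1 := by
      intro h
      obtain ⟨s, hs, -, hsc⟩ := hacc' a
      obtain ⟨b, hb, hsb⟩ := hs.2
      apply hsb
      rw [hsc b hb]
      have : x = 1 := congrArg Subtype.val h
      rw [this]
      rfl
    have hxS : (⟨x, hxH⟩ : Hg) ∈ S := by
      rcases hxcl with h | h
      · exact h
      · exact absurd h hxne
    have hop : IsOpen ({⟨⟨x, hxH⟩, hxS⟩} : Set S) := isOpen_discrete _
    obtain ⟨U, hU, hUeq⟩ := isOpen_induced_iff.1 hop
    have hxU : (⟨x, hxH⟩ : Hg) ∈ U := by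
      have : (⟨⟨x, hxH⟩, hxS⟩ : S) ∈ Subtype.val ⁻¹' U := by rw [hUeq]; exact mem_singleton _
      exact this
    obtain ⟨c, hc⟩ := hbasis _ U hU hxU
    obtain ⟨s, hs, hsne, hsc⟩ := hacc' c
    have : (⟨s, hs.1⟩ : S) ∈ (Subtype.val ⁻¹' U : Set S) := hc s hsc
    rw [hUeq] at this
    exact hsne (congrArg Subtype.val this)
  -- bounds
  have hbound : ∀ a : W1, ∃ g : W1, ∀ s ∈ S, (∃ b < a, (s : P) b ≠ 1) →
      ∀ b, g ≤ b → (s : P) b = 1 := by
    intro a
    have h1 : (⋃ s ∈ {s ∈ S | ∃ b < a, (s : P) b ≠ 1}, {b | (s : P) b ≠ 1}).Countable :=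
      (hcount a).biUnion fun s _ => countable_supp s.2
    obtain ⟨g, hg⟩ := exists_bound h1
    refine ⟨g, fun s hs hsa b hb => ?_⟩
    by_contra hne
    exact absurd (hg b (mem_iUnion₂.2 ⟨s, ⟨hs, hsa⟩, hne⟩)) (not_lt.2 hb)
  choose g hg using hbound
  have hne : Nonempty W1 := by
    have := uncountable_W1
    infer_instance
  obtain ⟨d, hd, -, hcl⟩ := exists_closed g hne.some
  -- elements of the subgroup generated by `S` are bounded in `d`
  have hbdd : ∀ w ∈ Subgroup.closure S, ∃ c < d, ∀ b, c ≤ b → b < d → (w : P) b = 1 := by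
    intro w hw
    induction hw using Subgroup.closure_induction with
    | mem s hs =>
      by_cases hsd : ∃ b < d, (s : P) b ≠ 1
      · obtain ⟨b, hb, hsb⟩ := hsd
        obtain ⟨a, hba, had⟩ := hd.2 b hb
        exact ⟨g a, hcl a had, fun c hc _ => hg a s hs ⟨b, hba, hsb⟩ c hc⟩
      · push Not at hsd
        obtain ⟨a, ha⟩ := hd.1
        exact ⟨a, ha, fun b _ hb => hsd b hb⟩
    | one =>
      obtain ⟨a, ha⟩ := hd.1
      exact ⟨a, ha, fun b _ _ => rfl⟩
    | inv w _ ih =>
      obtain ⟨c, hc, h⟩ := ih
      refine ⟨c, hc, fun b hb hbd => ?_⟩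
      change ((w : P) b)⁻¹ = 1
      rw [h b hb hbd, inv_one]
    | mul w w' _ _ ih ih' =>
      obtain ⟨c, hc, h⟩ := ih
      obtain ⟨c', hc', h'⟩ := ih'
      refine ⟨max c c', max_lt hc hc', fun b hb hbd => ?_⟩
      change (w : P) b * (w' : P) b = 1
      rw [h b ((le_max_left _ _).trans hb) hbd, h' b ((le_max_right _ _).trans hb) hbd, mul_one]
  -- the ladder at `d` is not approximable
  have hlad : ind (Lad d) ∈ Hg := gen_mem (d, false)
  obtain ⟨w, hw1, hw2⟩ := hdense.inter_open_nonempty _ (hcyl ⟨ind (Lad d), hlad⟩ d)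
    ⟨⟨ind (Lad d), hlad⟩, fun b _ => rfl⟩
  obtain ⟨c, hc, hwc⟩ := hbdd w hw2
  obtain ⟨b, hbL, hcb⟩ := Lad_cof hd c hc
  have hbd : b < d := Lad_sub d hbL
  have h1 : (w : P) b = ind (Lad d) b := hw1 b hbd
  rw [hwc b hcb.le hbd, ind_of_mem hbL] at h1
  exact t_ne_one h1.symm

end Pool.Agent.Results.MP_7b4824_gt.NoSuitableSet
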